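import Pool.Agent.Q72.AL.StmG

/-! # From the spacings of `x log x` to the spacings of the ordinates -/

set_option autoImplicit false

open Complex MeasureTheory Filter Topology Set

namespace Pool.Agent.Q94.AL

open Pool.Agent.Q72.AL

theorem xlogx (x y : ℝ) (hx : 0 < x) (hxy : x ≤ y) :
    |(y * Real.log y - x * Real.log x) - (y - x) * (Real.log x + 1)| ≤ (y - x) ^ 2 / x := by
  have hy : 0 < y := lt_of_lt_of_le hx hxy
  have e : (y * Real.log y - x * Real.log x) - (y - x) * (Real.log x + 1) =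
      y * Real.log (y / x) - (y - x) := by
    rw [Real.log_div hy.ne' hx.ne']
    ring
  rw [e]
  have h1 : Real.log (y / x) ≤ y / x - 1 := Real.log_le_sub_one_of_pos (div_pos hy hx)
  have h2 : 1 - x / y ≤ Real.log (y / x) := by
    have := Real.log_le_sub_one_of_pos (div_pos hx hy)
    have e2 : Real.log (x / y) = - Real.log (y / x) := by
      rw [← Real.log_inv, inv_div]
    rw [e2] at this
    linarith
  have h3 : 0 ≤ y * Real.log (y / x) - (y - x) := by
    have : y * (1 - x / y) ≤ y * Real.log (y / x) := mul_le_mul_of_nonneg_left h2 hy.le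
    have e3 : y * (1 - x / y) = y - x := by field_simp
    linarith
  rw [abs_of_nonneg h3]
  have h4 : y * Real.log (y / x) ≤ y * (y / x - 1) := mul_le_mul_of_nonneg_left h1 hy.le
  have e4 : y * (y / x - 1) - (y - x) = (y - x) ^ 2 / x := by
    field_simp
  linarith

theorem small (c ε : ℝ) (hc : 0 < c) (hε : 0 < ε) :
    ∀ᶠ x : ℝ in atTop, c / x ≤ ε * Real.log x ^ (-(3 / 2) : ℝ) := by
  have h := (isLittleO_log_rpow_rpow_atTop (3 / 2) (one_pos : (0 : ℝ) < 1)).bound (div_pos hε hc)
  filter_upwards [h, eventually_gt_atTop (Real.exp 1)] with x hx hx1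
  have hx0 : 0 < x := lt_trans (Real.exp_pos 1) hx1
  have hL : 0 < Real.log x := by
    have := Real.log_lt_log (Real.exp_pos 1) hx1
    rw [Real.log_exp] at this
    linarith
  have hLp : 0 < Real.log x ^ (3 / 2 : ℝ) := Real.rpow_pos_of_pos hL _
  rw [Real.norm_of_nonneg hLp.le, Real.rpow_one, Real.norm_of_nonneg hx0.le] at hx
  rw [Real.rpow_neg hL.le, ← div_eq_mul_inv, div_le_div_iff₀ hx0 hLp]
  calc c * Real.log x ^ (3 / 2 : ℝ) ≤ c * (ε / c * x) := mul_le_mul_of_nonneg_left hx hc.le
    _ = ε * x := by field_simp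

theorem gap (h : J_GB) : J_GAP := by
  obtain ⟨C, hC, hgap⟩ := h
  intro H ε hε
  have hpi := Real.pi_pos
  have h1 := H (ε / 2) (by positivity)
  have h2 := SG.ord_tendsto.eventually (small (C ^ 2 / (2 * Real.pi)) (ε / 2) (by positivity) (by positivity))
  filter_upwards [h1, h2, eventually_ge_atTop 1] with n hn1 hn2 hn
  obtain ⟨k, hk, hk2⟩ := hn1
  refine ⟨k, hk, ?_⟩
  have hx := SG.ord_pos hn
  have hxy : SG.ord n ≤ SG.ord (n + 1) := SG.ord_mono hn (Nat.le_succ n)
  have hg := hgap n hn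
  have h3 := xlogx _ _ hx hxy
  set x := SG.ord n
  set y := SG.ord (n + 1)
  have h4 : (y - x) ^ 2 / x ≤ C ^ 2 / x := by
    apply div_le_div_of_nonneg_right _ hx.le
    apply pow_le_pow_left₀ (by linarith) hg
  have e : (y - x) * (Real.log x + 1) / (2 * Real.pi) - k / 2 =
      ((y * Real.log y - x * Real.log x) / (2 * Real.pi) - k / 2) -
        ((y * Real.log y - x * Real.log x) - (y - x) * (Real.log x + 1)) / (2 * Real.pi) := by ring
  rw [e]
  have h5 : |((y * Real.log y - x * Real.log x) - (y - x) * (Real.log x + 1)) / (2 * Real.pi)| ≤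
      C ^ 2 / (2 * Real.pi) / x := by
    rw [abs_div, abs_of_pos (by positivity : (0 : ℝ) < 2 * Real.pi), div_right_comm]
    apply div_le_div_of_nonneg_right _ (by positivity)
    exact h3.trans h4
  calc _ ≤ |(y * Real.log y - x * Real.log x) / (2 * Real.pi) - k / 2| +
        |((y * Real.log y - x * Real.log x) - (y - x) * (Real.log x + 1)) / (2 * Real.pi)| := abs_sub _ _
    _ ≤ ε / 2 * Real.log x ^ (-(3 / 2) : ℝ) + ε / 2 * Real.log x ^ (-(3 / 2) : ℝ) :=
        add_le_add hk2 (h5.trans hn2)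
    _ = ε * Real.log x ^ (-(3 / 2) : ℝ) := by ring

end Pool.Agent.Q94.AL
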