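import Pool.Agent.Q72.AL.Stm4

/-! # The mean square over a long interval -/

set_option autoImplicit false

open Complex MeasureTheory Filter Topology Set

namespace Pool.Agent.Q94.AL

open Pool.Agent.Q72.AL

/-- the fourth root of two -/
noncomputable def rr : ℝ := (2 : ℝ) ^ (1 / 4 : ℝ)

theorem rr_pos : 0 < rr := Real.rpow_pos_of_pos two_pos _

theorem rr_pow : rr ^ 4 = 2 := by
  unfold rr
  rw [← Real.rpow_natCast, ← Real.rpow_mul (by norm_num)]
  norm_num

theorem rr_log : Real.log rr = Real.log 2 / 4 := by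
  unfold rr
  rw [Real.log_rpow two_pos]
  ring

theorem rr_one : 1 ≤ rr := Real.one_le_rpow (by norm_num) (by norm_num)

theorem rr_two : rr ≤ 2 := by
  have h : rr ^ 1 ≤ rr ^ 4 := pow_le_pow_right₀ rr_one (by norm_num)
  rw [rr_pow, pow_one] at h
  exact h

theorem wt_nonneg (τ : ℝ) : 0 ≤ wt τ := le_max_left _ _

theorem wt_low {τ : ℝ} (h1 : rr ≤ τ) (h2 : τ ≤ rr ^ 3) : Real.log 2 / 4 ≤ wt τ := by
  have hτ : 0 < τ := lt_of_lt_of_le rr_pos h1
  have e1 := Real.log_le_log rr_pos h1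
  have e2 := Real.log_le_log hτ h2
  rw [Real.log_pow, rr_log] at e2
  rw [rr_log] at e1
  refine le_trans (le_min e1 ?_) (le_max_right _ _)
  push_cast at e2
  linarith

theorem DD_cont (h4 : J_DDC) {κ : ℝ} (hκ1 : 1 ≤ κ) (hκ2 : κ ≤ 2) (v : ℝ) :
    Continuous fun T : ℝ => ‖DD κ v T‖ ^ 2 := by
  have h := (h4 κ hκ1 hκ2).1
  have h2 : Continuous (fun T : ℝ => ((v, T) : ℝ × ℝ)) := by fun_prop
  have h' : Continuous ((fun p : ℝ × ℝ => DD κ p.1 p.2) ∘ fun T : ℝ => ((v, T) : ℝ × ℝ)) := h.comp h2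
  have e : ((fun p : ℝ × ℝ => DD κ p.1 p.2) ∘ fun T : ℝ => ((v, T) : ℝ × ℝ)) = fun T : ℝ => DD κ v T := rfl
  rw [e] at h'
  exact (continuous_norm.comp h').pow 2

theorem DD_norm {κ v : ℝ} (hs : Summable (fun n : ℕ => |cf κ v n|)) (T : ℝ) :
    ‖DD κ v T‖ ≤ ∑' n : ℕ, |cf κ v n| := by
  have e : ∀ n : ℕ, ‖((cf κ v n : ℝ) : ℂ) * cexp (-((T * Real.log n : ℝ) : ℂ) * I)‖ = |cf κ v n| := by
    intro n
    have h1 : -((T * Real.log n : ℝ) : ℂ) * I = ((-(T * Real.log n) : ℝ) : ℂ) * I := by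
      push_cast
      ring
    rw [norm_mul, h1, Complex.norm_exp_ofReal_mul_I, mul_one, Complex.norm_real, Real.norm_eq_abs]
  unfold DD
  refine le_trans (norm_tsum_le_tsum_norm (by simpa only [e] using hs)) ?_
  simp only [e]
  exact le_rfl

theorem window (h3 : J_WT) (h4 : J_DDC) {κ : ℝ} (hκ1 : 1 ≤ κ) (hκ2 : κ ≤ 2) (v : ℝ) {Y : ℝ} (hY : 1 ≤ Y) :
    Real.log 2 / 4 * ∫ T in (Y * rr)..(Y * rr ^ 3), ‖DD κ v T‖ ^ 2 ≤
      ∫ T in Y..(2 * Y), wt (T / Y) * ‖DD κ v T‖ ^ 2 := by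
  have hY0 : 0 < Y := by linarith
  have hc := DD_cont h4 hκ1 hκ2 v
  have hr1 := rr_one
  have hr3 : rr ≤ rr ^ 3 := by
    have h : rr ^ 1 ≤ rr ^ 3 := pow_le_pow_right₀ rr_one (by norm_num)
    rwa [pow_one] at h
  have hr4 : rr ^ 3 ≤ 2 := by
    have h : rr ^ 3 ≤ rr ^ 4 := pow_le_pow_right₀ rr_one (by norm_num)
    rwa [rr_pow] at h
  have a1 : Y ≤ Y * rr := le_mul_of_one_le_right hY0.le hr1
  have a2 : Y * rr ≤ Y * rr ^ 3 := mul_le_mul_of_nonneg_left hr3 hY0.le
  have a3 : Y * rr ^ 3 ≤ 2 * Y := by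
    have := mul_le_mul_of_nonneg_left hr4 hY0.le
    linarith
  have hwc : ContinuousOn (fun T : ℝ => wt (T / Y)) (Icc Y (2 * Y)) := by
    refine h3.2.1.comp (by fun_prop) ?_
    intro T hT
    exact div_pos (lt_of_lt_of_le hY0 hT.1) hY0
  have hint : IntervalIntegrable (fun T => wt (T / Y) * ‖DD κ v T‖ ^ 2) volume Y (2 * Y) := by
    apply ContinuousOn.intervalIntegrable
    rw [uIcc_of_le (by linarith)]
    exact hwc.mul hc.continuousOn
  have hint2 : IntervalIntegrable (fun T => wt (T / Y) * ‖DD κ v T‖ ^ 2) volume (Y * rr) (Y * rr ^ 3) := by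
    apply ContinuousOn.intervalIntegrable
    rw [uIcc_of_le a2]
    exact (hwc.mul hc.continuousOn).mono (Icc_subset_Icc a1 a3)
  rw [← intervalIntegral.integral_const_mul]
  refine le_trans (intervalIntegral.integral_mono_on a2 ((hc.const_mul _).intervalIntegrable _ _) hint2 ?_) ?_
  · intro T hT
    apply mul_le_mul_of_nonneg_right _ (by positivity)
    apply wt_low
    · rw [le_div_iff₀ hY0]
      linarith [hT.1]
    · rw [div_le_iff₀ hY0]
      linarith [hT.2]
  · apply intervalIntegral.integral_mono_interval a1 a2 a3 _ hint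
    refine Eventually.of_forall fun T => ?_
    exact mul_nonneg (wt_nonneg _) (by positivity)

theorem mvs (h1 : J_MV) (h2 : J_DDB) (h3 : J_WT) (h4 : J_DDC) : J_MVS := by
  obtain ⟨C1, hC1, hMV⟩ := h1
  obtain ⟨C2, hC2, hB⟩ := h2
  have hW := h3.2.2.1
  have hl2 : 0 < Real.log 2 := Real.log_pos (by norm_num)
  have hr0 := rr_pos
  have hr1 := rr_one
  have hr2 := rr_two
  have hr4 := rr_pow
  set K : ℝ := 4 / Real.log 2 * (W0 * C2 + C1) with hK
  have hK0 : 0 < K := by positivity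
  refine ⟨24 * K + 56 * C2 ^ 2, by positivity, ?_⟩
  intro κ v X hκ1 hκ2 hX
  have hX0 : 0 < X := by linarith
  obtain ⟨hs, hs2, -, -, -, hAA, -⟩ := hB κ v hκ1 hκ2
  have hc := DD_cont h4 hκ1 hκ2 v
  set E : ℝ := Real.exp v + Real.exp (2 * v) with hE
  have hE0 : 0 < E := by positivity
  have hbase : 0 ≤ X + E / X := by positivity
  rcases lt_or_ge X 4 with hX4 | hX4
  · have hb : ∀ T : ℝ, ‖DD κ v T‖ ^ 2 ≤ C2 ^ 2 * Real.exp v := by
      intro T
      have h5 := (DD_norm hs T).trans hs2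
      have h6 := pow_le_pow_left₀ (norm_nonneg _) h5 2
      have h7 : (C2 * Real.exp (v / 2)) ^ 2 = C2 ^ 2 * Real.exp v := by
        rw [mul_pow, ← Real.exp_nat_mul]
        congr 2
        push_cast
        ring
      rwa [h7] at h6
    have h8 : ∫ T in (X / 2)..(4 * X), ‖DD κ v T‖ ^ 2 ≤ ∫ _T in (X / 2)..(4 * X), C2 ^ 2 * Real.exp v :=
      intervalIntegral.integral_mono_on (by linarith) (hc.intervalIntegrable _ _)
        (continuous_const.intervalIntegrable _ _) (fun T _ => hb T)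
    rw [intervalIntegral.integral_const, smul_eq_mul] at h8
    have h9 : Real.exp v ≤ E := by
      have := Real.exp_pos (2 * v)
      rw [hE]
      linarith
    have h10 : (4 * X - X / 2) * (C2 ^ 2 * Real.exp v) ≤ 56 * C2 ^ 2 * (E / X) := by
      rw [mul_div_assoc', le_div_iff₀ hX0]
      have h11 : (4 * X - X / 2) * X ≤ 56 := by nlinarith
      have h12 : 0 ≤ C2 ^ 2 * Real.exp v := by positivity
      calc (4 * X - X / 2) * (C2 ^ 2 * Real.exp v) * X = ((4 * X - X / 2) * X) * (C2 ^ 2 * Real.exp v) := by ring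
        _ ≤ 56 * (C2 ^ 2 * Real.exp v) := mul_le_mul_of_nonneg_right h11 h12
        _ ≤ 56 * (C2 ^ 2 * E) := by
            apply mul_le_mul_of_nonneg_left _ (by norm_num)
            exact mul_le_mul_of_nonneg_left h9 (by positivity)
        _ = 56 * C2 ^ 2 * E := by ring
    have h13 : 0 ≤ 24 * K * (X + E / X) := by positivity
    have h14 : 0 ≤ 56 * C2 ^ 2 * X := by positivity
    calc _ ≤ _ := h8
      _ ≤ _ := h10
      _ ≤ (24 * K + 56 * C2 ^ 2) * (X + E / X) := by nlinarith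
  · let a : ℕ → ℝ := fun i => X / 2 * rr ^ (2 * i)
    have hsum : ∑ i ∈ Finset.range 6, ∫ T in (a i)..(a (i + 1)), ‖DD κ v T‖ ^ 2 =
        ∫ T in (a 0)..(a 6), ‖DD κ v T‖ ^ 2 :=
      intervalIntegral.sum_integral_adjacent_intervals (fun k _ => hc.intervalIntegrable _ _)
    have ha0 : a 0 = X / 2 := by simp [a]
    have ha6 : a 6 = 4 * X := by
      show X / 2 * rr ^ (2 * 6) = 4 * X
      have : rr ^ (2 * 6) = (rr ^ 4) ^ 3 := by ring
      rw [this, hr4]
      ring
    rw [ha0, ha6] at hsum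
    rw [← hsum]
    have hterm : ∀ i ∈ Finset.range 6, ∫ T in (a i)..(a (i + 1)), ‖DD κ v T‖ ^ 2 ≤ 4 * K * (X + E / X) := by
      intro i hi
      have hi6 : i < 6 := Finset.mem_range.1 hi
      have hri : 1 ≤ rr ^ (2 * i) := one_le_pow₀ hr1
      have hri2 : rr ^ (2 * i) ≤ rr ^ 10 := pow_le_pow_right₀ hr1 (by omega)
      set Y : ℝ := X / 2 * rr ^ (2 * i) / rr with hYd
      have hY4 : X / 4 ≤ Y := by
        rw [hYd, le_div_iff₀ hr0]
        have : X / 4 * rr ≤ X / 4 * 2 := mul_le_mul_of_nonneg_left hr2 (by positivity)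
        have h' : X / 2 * 1 ≤ X / 2 * rr ^ (2 * i) := mul_le_mul_of_nonneg_left hri (by positivity)
        linarith
      have hY1 : 1 ≤ Y := by linarith
      have hY0 : 0 < Y := by linarith
      have hYX : Y ≤ 4 * X := by
        rw [hYd, div_le_iff₀ hr0]
        have h10 : rr ^ 10 = 4 * rr * rr := by
          have : rr ^ 10 = (rr ^ 4) ^ 2 * rr * rr := by ring
          rw [this, hr4]
          ring
        have h' : X / 2 * rr ^ (2 * i) ≤ X / 2 * (4 * rr * rr) := by
          rw [← h10]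
          exact mul_le_mul_of_nonneg_left hri2 (by positivity)
        have h'' : X / 2 * (4 * rr * rr) ≤ 4 * X * rr := by
          have : 2 * X * rr * rr ≤ 2 * X * rr * 2 := mul_le_mul_of_nonneg_left hr2 (by positivity)
          linarith
        linarith
      have e1 : a i = Y * rr := by
        show X / 2 * rr ^ (2 * i) = Y * rr
        rw [hYd, div_mul_cancel₀ _ hr0.ne']
      have e2 : a (i + 1) = Y * rr ^ 3 := by
        show X / 2 * rr ^ (2 * (i + 1)) = Y * rr ^ 3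
        have : Y * rr ^ 3 = (Y * rr) * rr ^ 2 := by ring
        rw [this, ← e1]
        show X / 2 * rr ^ (2 * (i + 1)) = X / 2 * rr ^ (2 * i) * rr ^ 2
        ring
      rw [e1, e2]
      have hw := window h3 h4 hκ1 hκ2 v hY1
      have hm := (abs_le.1 (hMV κ v Y hκ1 hκ2 hY1)).2
      have hAA2 : Y * W0 * AA κ v ≤ Y * W0 * C2 := mul_le_mul_of_nonneg_left hAA (by positivity)
      have hEY : E / Y ≤ 4 * (E / X) := by
        rw [div_le_iff₀ hY0]
        have : 4 * (E / X) * (X / 4) ≤ 4 * (E / X) * Y := mul_le_mul_of_nonneg_left hY4 (by positivity)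
        have h' : 4 * (E / X) * (X / 4) = E := by field_simp
        linarith
      have hEY0 : 0 ≤ E / Y := by positivity
      have h15 : Real.log 2 / 4 * ∫ T in (Y * rr)..(Y * rr ^ 3), ‖DD κ v T‖ ^ 2 ≤
          (W0 * C2 + C1) * (Y + E / Y) := by
        have h16 : C1 * E / Y = C1 * (E / Y) := by ring
        rw [h16] at hm
        have h17 : 0 ≤ W0 * C2 * (E / Y) := by positivity
        have h18 : 0 ≤ C1 * Y := by positivity
        nlinarith
      have h19 : ∫ T in (Y * rr)..(Y * rr ^ 3), ‖DD κ v T‖ ^ 2 ≤ K * (Y + E / Y) := by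
        have h20 : K * (Y + E / Y) = 4 / Real.log 2 * ((W0 * C2 + C1) * (Y + E / Y)) := by
          rw [hK]
          ring
        rw [h20]
        have h21 := mul_le_mul_of_nonneg_left h15 (by positivity : (0 : ℝ) ≤ 4 / Real.log 2)
        have h22 : 4 / Real.log 2 * (Real.log 2 / 4 * ∫ T in (Y * rr)..(Y * rr ^ 3), ‖DD κ v T‖ ^ 2) =
            ∫ T in (Y * rr)..(Y * rr ^ 3), ‖DD κ v T‖ ^ 2 := by
          field_simp
        rwa [h22] at h21
      calc _ ≤ K * (Y + E / Y) := h19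
        _ ≤ K * (4 * X + 4 * (E / X)) := mul_le_mul_of_nonneg_left (by linarith) hK0.le
        _ = 4 * K * (X + E / X) := by ring
    calc _ ≤ ∑ _i ∈ Finset.range 6, 4 * K * (X + E / X) := Finset.sum_le_sum hterm
      _ = 24 * K * (X + E / X) := by
          rw [Finset.sum_const, Finset.card_range, nsmul_eq_mul]
          push_cast
          ring
      _ ≤ (24 * K + 56 * C2 ^ 2) * (X + E / X) := by
          apply mul_le_mul_of_nonneg_right _ hbase
          have : 0 ≤ 56 * C2 ^ 2 := by positivity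
          linarith

end Pool.Agent.Q94.AL
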