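import Pool.Agent.Q72.AL.Stm3
import Pool.Agent.Q94.AL.GAP

/-! # From the spacings of `x log x` to the spacings of the ordinates, in one window -/

set_option autoImplicit false

open Complex MeasureTheory Filter Topology Set

namespace Pool.Agent.Q94.AL

open Pool.Agent.Q72.AL

theorem gapw (h : J_GB) : J_GAPW := by
  obtain ⟨C, hC, hgap⟩ := h
  intro ε hε
  have hpi := Real.pi_pos
  obtain ⟨X1, hX1⟩ := Filter.eventually_atTop.1
    (small (C ^ 2 / (2 * Real.pi)) ε (by positivity) (by positivity))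
  refine ⟨4 * X1, fun X hX H n hn hn4 hn6 => ?_⟩
  obtain ⟨k, hk, hk2⟩ := H n hn hn4 hn6
  have hn2 := hX1 (SG.ord n) (by linarith)
  refine ⟨k, hk, ?_⟩
  have hx := SG.ord_pos hn
  have hxy : SG.ord n ≤ SG.ord (n + 1) := SG.ord_mono hn (Nat.le_succ n)
  have hg := hgap n hn
  have h3 := xlogx _ _ hx hxy
  set x := SG.ord n
  set y := SG.ord (n + 1)
  have h4 : (y - x) ^ 2 / x ≤ C ^ 2 / x := by
    apply div_le_div_of_nonneg_right _ hx.le
    apply pow_le_pow_left₀ (by linarith) hg
  have e : (y - x) * (Real.log x + 1) / (2 * Real.pi) - k / 2 =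
      ((y * Real.log y - x * Real.log x) / (2 * Real.pi) - k / 2) -
        ((y * Real.log y - x * Real.log x) - (y - x) * (Real.log x + 1)) / (2 * Real.pi) := by ring
  rw [e]
  have h5 : |((y * Real.log y - x * Real.log x) - (y - x) * (Real.log x + 1)) / (2 * Real.pi)| ≤
      C ^ 2 / (2 * Real.pi) / x := by
    rw [abs_div, abs_of_pos (by positivity : (0 : ℝ) < 2 * Real.pi), div_right_comm]
    apply div_le_div_of_nonneg_right _ (by positivity)
    exact h3.trans h4
  calc _ ≤ |(y * Real.log y - x * Real.log x) / (2 * Real.pi) - k / 2| +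
        |((y * Real.log y - x * Real.log x) - (y - x) * (Real.log x + 1)) / (2 * Real.pi)| := abs_sub _ _
    _ ≤ ε * Real.log x ^ (-(3 / 2) : ℝ) + ε * Real.log x ^ (-(3 / 2) : ℝ) :=
        add_le_add hk2 (h5.trans hn2)
    _ = 2 * ε * Real.log x ^ (-(3 / 2) : ℝ) := by ring

end Pool.Agent.Q94.AL
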